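import Mathlib
import Pool.Agent.H49.MK.Defs

/-!
The weights of the double counting argument.
-/

namespace Pool.Agent.H91.MK

open Pool.Agent.H49.MK

/-- bound for the variance of the sum over a random set of density at most one third -/
noncomputable def Vb (b : ℝ) : ℝ := 2223 / 10000 * QA b

/-- one-sided Chebyshev bound for the lower tail at `-1`, given the sum `x` on the removed set -/
noncomputable def al1 (b x : ℝ) : ℝ :=
  if x < 2 + b then Vb b / (Vb b + ((2 + b - x) / 3) ^ 2) else 1

/-- one-sided Chebyshev bound for the lower tail at `b - 1`, given the sum `x` on the removed set -/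
noncomputable def alJ (b x : ℝ) : ℝ :=
  if x < 2 * (1 - b) then Vb b / (Vb b + ((2 * (1 - b) - x) / 3) ^ 2) else 1

/-- the weight of a good set with sum `x` -/
noncomputable def GG (b x : ℝ) : ℝ := 1 / (al1 b x / 3 + alJ b x / 9)

theorem Vb_pos (b : ℝ) : 0 < Vb b := by
  unfold Vb QA
  split_ifs <;> norm_num

theorem tl_pos (V d x : ℝ) (hV : 0 < V) : 0 < (if x < d then V / (V + ((d - x) / 3) ^ 2) else 1) := by
  split_ifs
  · positivity
  · norm_num

theorem tl_le_one (V d x : ℝ) (hV : 0 < V) : (if x < d then V / (V + ((d - x) / 3) ^ 2) else 1) ≤ 1 := by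
  split_ifs
  · rw [div_le_one (by positivity)]
    nlinarith [sq_nonneg ((d - x) / 3)]
  · exact le_rfl

theorem tl_mono (V d x x' : ℝ) (hV : 0 < V) (hx : x ≤ x') :
    (if x < d then V / (V + ((d - x) / 3) ^ 2) else 1) ≤
      (if x' < d then V / (V + ((d - x') / 3) ^ 2) else 1) := by
  by_cases h' : x' < d
  · rw [if_pos h', if_pos (lt_of_le_of_lt hx h')]
    refine div_le_div_of_nonneg_left hV.le (by positivity) ?_
    have : ((d - x') / 3) ^ 2 ≤ ((d - x) / 3) ^ 2 := by
      refine pow_le_pow_left₀ (by linarith) (by linarith) 2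
    linarith
  · rw [if_neg h']
    exact tl_le_one V d x hV

theorem al1_pos (b x : ℝ) : 0 < al1 b x := tl_pos _ _ _ (Vb_pos b)

theorem alJ_pos (b x : ℝ) : 0 < alJ b x := tl_pos _ _ _ (Vb_pos b)

theorem al1_le (b x : ℝ) : al1 b x ≤ 1 := tl_le_one _ _ _ (Vb_pos b)

theorem alJ_le (b x : ℝ) : alJ b x ≤ 1 := tl_le_one _ _ _ (Vb_pos b)

theorem al1_mono (b x x' : ℝ) (h : x ≤ x') : al1 b x ≤ al1 b x' := tl_mono _ _ _ _ (Vb_pos b) h

theorem alJ_mono (b x x' : ℝ) (h : x ≤ x') : alJ b x ≤ alJ b x' := tl_mono _ _ _ _ (Vb_pos b) h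

theorem GG_pos (b x : ℝ) : 0 < GG b x := by
  unfold GG
  have h1 := al1_pos b x
  have h2 := alJ_pos b x
  positivity

theorem GG_anti (b x x' : ℝ) (h : x ≤ x') : GG b x' ≤ GG b x := by
  unfold GG
  have h1 := al1_pos b x
  have h2 := alJ_pos b x
  have h3 := al1_mono b x x' h
  have h4 := alJ_mono b x x' h
  exact one_div_le_one_div_of_le (by positivity) (by linarith)

theorem GG_ge (b x : ℝ) : 9 / 4 ≤ GG b x := by
  unfold GG
  have h1 := al1_pos b x
  have h2 := alJ_pos b x
  have h3 := al1_le b x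
  have h4 := alJ_le b x
  rw [le_div_iff₀ (by positivity)]
  linarith

/-- the weight cancels the two tail bounds -/
theorem GG_cancel (b x : ℝ) : GG b x * (al1 b x / 3 + alJ b x / 9) = 1 := by
  unfold GG
  have h1 := al1_pos b x
  have h2 := alJ_pos b x
  field_simp

end Pool.Agent.H91.MK
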